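import Pool.Agent.Lib_helper51.GL.Defs
import Pool.Agent.Lib_helper31.PQ.AP

/-! # Project GL, block DM: fixed `m`; everything depends on `q mod 8m` only; densities -/

set_option autoImplicit false

namespace Pool.Agent.GL

open Finset Filter Topology Pool.Agent.PQ Pool.Agent.TM32

theorem dm_K (m q q' : ℕ) (h : q ≡ q' [MOD m]) : K m q = K m q' := by
  classical
  unfold K
  refine Finset.filter_congr fun d _ => ?_
  refine forall_congr' fun p => forall_congr' fun _ => forall_congr' fun hpm => ?_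
  refine and_congr_right fun _ => forall_congr' fun _ => ?_
  have h1 : ((m / d * q : ℕ) : ℤ) % p = ((m / d * q' : ℕ) : ℤ) % p := by
    have h2 : m / d * q ≡ m / d * q' [MOD p] := (h.of_dvd hpm).mul_left _
    exact_mod_cast h2
  rw [jacobiSym.mod_left ((m / d * q : ℕ) : ℤ), h1, ← jacobiSym.mod_left]

theorem dm_nq (m q q' d : ℕ) (h : q ≡ q' [MOD m]) (hd : d ∣ m) : nq m q d = nq m q' d := by
  classical
  unfold nq
  congr 1
  refine Finset.filter_congr fun p hp => ?_
  have hpm : p ∣ m := (Nat.dvd_of_mem_primeFactors hp).trans hd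
  have h2 : m / d * q ≡ m / d * q' [MOD p] := (h.of_dvd hpm).mul_left _
  have h3 : ((m / d * q : ℕ) : ZMod p) = ((m / d * q' : ℕ) : ZMod p) :=
    (ZMod.natCast_eq_natCast_iff _ _ _).2 h2
  unfold Pow4
  rw [h3]

theorem dm_Nn (m q q' : ℕ) (h : q ≡ q' [MOD m]) : Nn m q = Nn m q' := by
  classical
  unfold Nn
  refine Finset.filter_congr fun d hd => ?_
  rw [dm_K (m / d) q q' (h.of_dvd (Nat.div_dvd_of_dvd (Nat.dvd_of_mem_divisors hd)))]

theorem dm_Eps (m q q' : ℕ) (h : q ≡ q' [MOD m]) : Eps m q ↔ Eps m q' := by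
  classical
  unfold Eps
  refine exists_congr fun d => and_congr_right fun _ => ?_
  rw [dm_K m q q' h]
  refine and_congr_right fun hK => ?_
  have hd : d ∣ m := by
    have h1 : d ∈ K m q' := by rw [hK]; simp
    unfold K at h1
    exact Nat.dvd_of_mem_divisors (Finset.mem_filter.1 h1).1
  rw [dm_nq m q q' d h hd]

/-! ### the classes -/

/-- the residue of `q` modulo `8` -/
def dmr (m : ℕ) : ℕ := if m % 8 = 1 then 3 else 7

theorem dm_m4 (m : ℕ) (hm0 : m ≠ 0) (h4 : ∀ p : ℕ, p.Prime → p ∣ m → p % 4 = 1) : m % 4 = 1 := by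
  induction m using Nat.recOnMul with
  | zero => exact absurd rfl hm0
  | one => rfl
  | prime p hp => exact h4 p hp dvd_rfl
  | mul a b ha hb =>
    have ha0 : a ≠ 0 := left_ne_zero_of_mul hm0
    have hb0 : b ≠ 0 := right_ne_zero_of_mul hm0
    have h1 := ha ha0 (fun p hp hpa => h4 p hp (hpa.mul_right b))
    have h2 := hb hb0 (fun p hp hpb => h4 p hp (hpb.mul_left a))
    rw [Nat.mul_mod, h1, h2]

theorem dm_mod8 (m u : ℕ) (hm : m % 4 = 1) : (m * u) % 8 = 3 ↔ u % 8 = dmr m := by
  unfold dmr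
  have hcases : m % 8 = 1 ∨ m % 8 = 5 := by omega
  rw [Nat.mul_mod]
  have hu : u % 8 < 8 := Nat.mod_lt _ (by norm_num)
  rcases hcases with h | h
  · rw [h, if_pos rfl]
    generalize u % 8 = v at hu ⊢
    interval_cases v <;> simp
  · rw [h, if_neg (by norm_num)]
    generalize u % 8 = v at hu ⊢
    interval_cases v <;> simp

theorem dm_fam (m q : ℕ) (hm : Squarefree m) (h4 : ∀ p : ℕ, p.Prime → p ∣ m → p % 4 = 1) (hq : q.Prime) :
    Fam m q ↔ q % 8 = dmr m := by
  have hm4 := dm_m4 m hm.ne_zero h4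
  constructor
  · rintro ⟨-, -, -, h8, -⟩
    exact (dm_mod8 m q hm4).1 h8
  · intro h
    have hq4 : q % 4 = 3 := by
      unfold dmr at h
      split_ifs at h <;> omega
    have hqm : ¬ q ∣ m := by
      intro hd
      have := h4 q hq hd
      omega
    refine ⟨?_, hq, hq4, (dm_mod8 m q hm4).2 h, h4⟩
    rw [Nat.squarefree_mul ((hq.coprime_iff_not_dvd.2 hqm).symm)]
    exact ⟨hm, hq.prime.squarefree⟩

open Classical in
/-- the admissible classes modulo `8m` -/
noncomputable def dmR (m : ℕ) (A : ℕ → Prop) : Finset ℕ :=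
  (range (8 * m)).filter (fun u => Nat.Coprime u (8 * m) ∧ u % 8 = dmr m ∧
    ∃ q, q.Prime ∧ q % (8 * m) = u ∧ A q)

open Classical in
/-- the limit of the counts -/
theorem dm_lim (m : ℕ) (hm : Squarefree m) (h4 : ∀ p : ℕ, p.Prime → p ∣ m → p % 4 = 1) (A : ℕ → Prop)
    (hA : ∀ q q', Fam m q → Fam m q' → q % (8 * m) = q' % (8 * m) → (A q ↔ A q')) :
    Tendsto (fun x : ℕ => (((prm x).filter (fun q => Fam m q ∧ A q)).card : ℝ) /
      (x / Real.log x)) atTop
      (𝓝 (((dmR m A).card : ℝ) * (1 / (Nat.totient (8 * m) : ℝ)))) := by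
  have hm4 := dm_m4 m hm.ne_zero h4
  have hM : 0 < 8 * m := by have := Nat.pos_of_ne_zero hm.ne_zero; omega
  have hmod8 : ∀ q : ℕ, q % (8 * m) % 8 = q % 8 := fun q => Nat.mod_mod_of_dvd q (Dvd.intro _ rfl)
  have hsum : Tendsto (fun x : ℕ => ∑ u ∈ dmR m A,
      ((((prm x).filter (fun q => q % (8 * m) = u % (8 * m))).card : ℝ) / (x / Real.log x))) atTop
      (𝓝 (∑ _u ∈ dmR m A, (1 / (Nat.totient (8 * m) : ℝ)))) := by
    refine tendsto_finsetSum _ fun u hu => ?_
    unfold dmR at hu
    rw [mem_filter] at hu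
    exact pi_ap (8 * m) (by omega) u hu.2.1
  rw [sum_const, nsmul_eq_mul] at hsum
  refine hsum.congr fun x => ?_
  rw [← sum_div]
  congr 1
  rw [← Nat.cast_sum]
  congr 1
  rw [← card_biUnion]
  · congr 1
    ext q
    simp only [mem_biUnion, mem_filter]
    constructor
    · rintro ⟨u, hu, hq, hqu⟩
      have hqp : q.Prime := by
        unfold prm at hq
        exact (mem_filter.1 hq).2
      unfold dmR at hu
      rw [mem_filter, mem_range] at hu
      obtain ⟨hlt, hc, h8, q', hq', hq'u, hAq'⟩ := hu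
      rw [Nat.mod_eq_of_lt hlt] at hqu
      have hF : Fam m q := by
        rw [dm_fam m q hm h4 hqp, ← hmod8, hqu, h8]
      have hF' : Fam m q' := by
        rw [dm_fam m q' hm h4 hq', ← hmod8, hq'u, h8]
      exact ⟨hq, hF, (hA q q' hF hF' (by rw [hqu, hq'u])).2 hAq'⟩
    · rintro ⟨hq, hF, hAq⟩
      have hqp : q.Prime := hF.2.1
      refine ⟨q % (8 * m), ?_, hq, (Nat.mod_mod _ _).symm⟩
      unfold dmR
      rw [mem_filter, mem_range]
      refine ⟨Nat.mod_lt _ hM, ?_, ?_, q, hqp, rfl, hAq⟩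
      · have h1 : Nat.Coprime q (8 * m) := by
          rw [hqp.coprime_iff_not_dvd]
          intro hdvd
          rcases (hqp.dvd_mul).1 hdvd with h | h
          · have : q ∣ 2 ^ 3 := by simpa using h
            have := hqp.dvd_of_dvd_pow this
            have := (Nat.prime_dvd_prime_iff_eq hqp Nat.prime_two).1 this
            have := hF.2.2.1
            omega
          · have := h4 q hqp h
            have := hF.2.2.1
            omega
        unfold Nat.Coprime at h1 ⊢
        rw [← Nat.gcd_rec, Nat.gcd_comm]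
        exact h1
      · rw [hmod8]
        exact (dm_fam m q hm h4 hqp).1 hF
  · intro u hu v hv huv
    simp only [Function.onFun]
    rw [disjoint_filter]
    intro q _ h h'
    apply huv
    unfold dmR at hu hv
    simp only [coe_filter, mem_range, Set.mem_ofPred_eq] at hu hv
    rw [Nat.mod_eq_of_lt hu.1] at h
    rw [Nat.mod_eq_of_lt hv.1] at h'
    rw [← h, ← h']

/-- the number of all admissible classes -/
theorem dm_all (m : ℕ) (hm : Squarefree m) (h4 : ∀ p : ℕ, p.Prime → p ∣ m → p % 4 = 1) :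
    (dmR m fun _ => True).card = Nat.totient m := by
  classical
  have hm4 := dm_m4 m hm.ne_zero h4
  have hm0 : 0 < m := Nat.pos_of_ne_zero hm.ne_zero
  have hM : 0 < 8 * m := by omega
  have h8m : Nat.Coprime 8 m := by
    have : Nat.Coprime 2 m := by
      rw [Nat.coprime_two_left, Nat.odd_iff]; omega
    exact Nat.Coprime.pow_left 3 this
  have hr8 : dmr m < 8 := by unfold dmr; split_ifs <;> norm_num
  have hr2 : dmr m % 2 = 1 := by unfold dmr; split_ifs <;> norm_num
  rw [Nat.totient_eq_card_coprime]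
  refine Finset.card_bij (fun u _ => u % m) ?_ ?_ ?_
  · intro u hu
    unfold dmR at hu
    simp only [mem_filter, mem_range] at hu ⊢
    refine ⟨Nat.mod_lt _ hm0, ?_⟩
    have h1 : Nat.Coprime u m := Nat.Coprime.coprime_mul_left_right hu.2.1
    unfold Nat.Coprime at h1 ⊢
    rw [← h1, Nat.gcd_comm u m, Nat.gcd_rec m u, Nat.gcd_comm]
  · intro u hu v hv huv
    unfold dmR at hu hv
    simp only [mem_filter, mem_range] at hu hv
    have h1 : u ≡ v [MOD 8] := by
      unfold Nat.ModEq
      rw [hu.2.2.1, hv.2.2.1]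
    have h3 : u ≡ v [MOD 8 * m] := (Nat.modEq_and_modEq_iff_modEq_mul h8m).1 ⟨h1, huv⟩
    exact Nat.ModEq.eq_of_lt_of_lt h3 hu.1 hv.1
  · intro v hv
    simp only [mem_filter, mem_range] at hv
    set k := Nat.chineseRemainder h8m (dmr m) v with hk
    have hk8 : (k : ℕ) % 8 = dmr m := by
      have := k.prop.1
      unfold Nat.ModEq at this
      rw [this, Nat.mod_eq_of_lt hr8]
    have hkm : (k : ℕ) % m = v := by
      have := k.prop.2
      unfold Nat.ModEq at this
      rw [this, Nat.mod_eq_of_lt hv.1]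
    have hcop : Nat.Coprime (k : ℕ) (8 * m) := by
      apply Nat.Coprime.mul_right
      · have h2 : Nat.Coprime (k : ℕ) 2 := by
          rw [Nat.coprime_two_right, Nat.odd_iff]
          omega
        exact Nat.Coprime.pow_right 3 h2
      · have h3 := hv.2
        unfold Nat.Coprime at h3 ⊢
        rw [Nat.gcd_comm, Nat.gcd_rec, hkm, Nat.gcd_comm]
        exact h3
    have hlt : (k : ℕ) < 8 * m := Nat.chineseRemainder_lt_mul h8m _ _ (by norm_num) hm.ne_zero
    refine ⟨k, ?_, hkm⟩
    unfold dmR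
    simp only [mem_filter, mem_range]
    refine ⟨hlt, hcop, hk8, ?_⟩
    obtain ⟨q, -, hq, hqk⟩ := Nat.forall_exists_prime_gt_and_modEq 0 hM.ne' hcop
    refine ⟨q, hq, ?_, trivial⟩
    have h5 : q % (8 * m) = (k : ℕ) % (8 * m) := hqk
    rw [h5, Nat.mod_eq_of_lt hlt]

open Classical in
/-- densities exist among the primes `q` with `Fam m q` -/
theorem dm_dens (m : ℕ) (hm : Squarefree m) (h4 : ∀ p : ℕ, p.Prime → p ∣ m → p % 4 = 1) (A : ℕ → Prop)
    (hA : ∀ q q', Fam m q → Fam m q' → q % (8 * m) = q' % (8 * m) → (A q ↔ A q')) :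
    Tendsto (fun x : ℕ => (((prm x).filter (fun q => Fam m q ∧ A q)).card : ℝ) /
      ((prm x).filter (fun q => Fam m q)).card) atTop
      (𝓝 (((dmR m A).card : ℝ) / (Nat.totient m : ℝ))) := by
  have hm0 : 0 < m := Nat.pos_of_ne_zero hm.ne_zero
  have h1 := dm_lim m hm h4 A hA
  have h2 := dm_lim m hm h4 (fun _ => True) (fun _ _ _ _ _ => Iff.rfl)
  rw [dm_all m hm h4] at h2
  simp only [and_true] at h2
  have hφm : (Nat.totient m : ℝ) ≠ 0 := by exact_mod_cast (Nat.totient_pos.2 hm0).ne'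
  have hφ : (Nat.totient (8 * m) : ℝ) ≠ 0 := by
    exact_mod_cast (Nat.totient_pos.2 (by omega : 0 < 8 * m)).ne'
  have h3 := h1.div h2 (mul_ne_zero hφm (one_div_ne_zero hφ))
  have e : ((dmR m A).card : ℝ) * (1 / (Nat.totient (8 * m) : ℝ)) /
      ((Nat.totient m : ℝ) * (1 / (Nat.totient (8 * m) : ℝ))) =
      ((dmR m A).card : ℝ) / (Nat.totient m : ℝ) := by
    field_simp
  rw [e] at h3
  refine h3.congr' ?_
  filter_upwards [eventually_ge_atTop 2] with x hx
  have hx1 : (1 : ℝ) < x := by exact_mod_cast (by omega : 1 < x)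
  have hne : (x : ℝ) / Real.log x ≠ 0 := by
    have := Real.log_pos hx1
    positivity
  simp only [Pi.div_apply]
  rw [div_div_div_cancel_right₀ hne]

end Pool.Agent.GL
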