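import Pool.Agent.Lib_helper51.GL.DefsD
import Pool.Agent.Lib_helper72.GL.DM

/-! # Project GL, blocks DK and DG -/

set_option autoImplicit false

namespace Pool.Agent.GL

open Finset Filter Topology Pool.Agent.PQ

theorem dk (m : ℕ) (hm : MM m) (u v : ℕ) (h : u % (8 * m) = v % (8 * m)) :
    K m u = K m v ∧ (∀ d, d ∣ m → nq m u d = nq m v d) ∧ Nn m u = Nn m v ∧ (Eps m u ↔ Eps m v) := by
  have h1 : u ≡ v [MOD m] := Nat.ModEq.of_dvd (Dvd.intro_left 8 rfl) h
  exact ⟨dm_K m u v h1, fun d hd => dm_nq m u v d h1 hd, dm_Nn m u v h1, dm_Eps m u v h1⟩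

theorem dkb (m : ℕ) (hm : MM m) (u : ℕ) (β : ℕ → ℤ) (h : ∀ p : ℕ, p.Prime → p ∣ m → jacobiSym (u : ℤ) p = β p) :
    K m u = KB m β := by
  classical
  unfold K KB
  refine Finset.filter_congr fun d _ => ?_
  refine forall_congr' fun p => forall_congr' fun hp => forall_congr' fun hpm => ?_
  refine and_congr_right fun _ => forall_congr' fun _ => ?_
  rw [← h p hp hpm, ← jacobiSym.mul_left]
  push_cast
  rfl

/-- the limit of the counts -/
theorem dg_lim (m : ℕ) (hm : MM m) (A : ℕ → Prop) [DecidablePred A]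
    (hA : ∀ u v : ℕ, u % (8 * m) = v % (8 * m) → (A u ↔ A v)) :
    Tendsto (fun x : ℕ => (((prm x).filter (fun q => (m * q) % 8 = 3 ∧ A q)).card : ℝ) /
      (x / Real.log x)) atTop
      (𝓝 ((((U m).filter A).card : ℝ) * (1 / (Nat.totient (8 * m) : ℝ)))) := by
  obtain ⟨hm, h4⟩ := hm
  have hm4 := dm_m4 m hm.ne_zero h4
  have hM : 0 < 8 * m := by have := Nat.pos_of_ne_zero hm.ne_zero; omega
  have hmod8 : ∀ q : ℕ, q % (8 * m) % 8 = q % 8 := fun q => Nat.mod_mod_of_dvd q (Dvd.intro _ rfl)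
  have hsum : Tendsto (fun x : ℕ => ∑ u ∈ (U m).filter A,
      ((((prm x).filter (fun q => q % (8 * m) = u % (8 * m))).card : ℝ) / (x / Real.log x))) atTop
      (𝓝 (∑ _u ∈ (U m).filter A, (1 / (Nat.totient (8 * m) : ℝ)))) := by
    refine tendsto_finsetSum _ fun u hu => ?_
    unfold U at hu
    rw [mem_filter, mem_filter] at hu
    exact pi_ap (8 * m) (by omega) u hu.1.2.1
  rw [sum_const, nsmul_eq_mul] at hsum
  refine hsum.congr fun x => ?_
  rw [← sum_div]
  congr 1
  rw [← Nat.cast_sum]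
  congr 1
  rw [← card_biUnion]
  · congr 1
    ext q
    simp only [mem_biUnion, mem_filter]
    constructor
    · rintro ⟨u, ⟨hu, hAu⟩, hq, hqu⟩
      unfold U at hu
      rw [mem_filter, mem_range] at hu
      obtain ⟨hlt, hc, h8⟩ := hu
      refine ⟨hq, ?_, (hA q u hqu).2 hAu⟩
      rw [dm_mod8 m q hm4, ← hmod8, hqu, hmod8, ← dm_mod8 m u hm4]
      exact h8
    · rintro ⟨hq, h8, hAq⟩
      have hqp : q.Prime := by
        unfold prm at hq
        exact (mem_filter.1 hq).2
      have hF : Fam m q := (dm_fam m q hm h4 hqp).2 ((dm_mod8 m q hm4).1 h8)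
      refine ⟨q % (8 * m), ⟨?_, (hA _ _ (Nat.mod_mod _ _)).2 hAq⟩, hq, (Nat.mod_mod _ _).symm⟩
      unfold U
      rw [mem_filter, mem_range]
      refine ⟨Nat.mod_lt _ hM, ?_, ?_⟩
      · have h1 : Nat.Coprime q (8 * m) := by
          rw [hqp.coprime_iff_not_dvd]
          intro hdvd
          rcases (hqp.dvd_mul).1 hdvd with h | h
          · have : q ∣ 2 ^ 3 := by simpa using h
            have := hqp.dvd_of_dvd_pow this
            have := (Nat.prime_dvd_prime_iff_eq hqp Nat.prime_two).1 this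
            have := hF.2.2.1
            omega
          · have := h4 q hqp h
            have := hF.2.2.1
            omega
        unfold Nat.Coprime at h1 ⊢
        rw [← Nat.gcd_rec, Nat.gcd_comm]
        exact h1
      · rw [dm_mod8 m _ hm4, hmod8, ← dm_mod8 m q hm4]
        exact h8
  · intro u hu v hv huv
    simp only [Function.onFun]
    rw [disjoint_filter]
    intro q _ h h'
    apply huv
    unfold U at hu hv
    simp only [coe_filter, mem_filter, mem_range, Set.mem_ofPred_eq] at hu hv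
    rw [Nat.mod_eq_of_lt hu.1.1] at h
    rw [Nat.mod_eq_of_lt hv.1.1] at h'
    rw [← h, ← h']

theorem dg_all (m : ℕ) (hm : MM m) : (U m).card = Nat.totient m := by
  obtain ⟨hm, h4⟩ := hm
  have hm4 := dm_m4 m hm.ne_zero h4
  have hm0 : 0 < m := Nat.pos_of_ne_zero hm.ne_zero
  have hM : 0 < 8 * m := by omega
  have h8m : Nat.Coprime 8 m := by
    have : Nat.Coprime 2 m := by
      rw [Nat.coprime_two_left, Nat.odd_iff]; omega
    exact Nat.Coprime.pow_left 3 this
  have hr8 : dmr m < 8 := by unfold dmr; split_ifs <;> norm_num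
  have hr2 : dmr m % 2 = 1 := by unfold dmr; split_ifs <;> norm_num
  rw [Nat.totient_eq_card_coprime]
  refine Finset.card_bij (fun u _ => u % m) ?_ ?_ ?_
  · intro u hu
    unfold U at hu
    simp only [mem_filter, mem_range] at hu ⊢
    refine ⟨Nat.mod_lt _ hm0, ?_⟩
    have h1 : Nat.Coprime u m := Nat.Coprime.coprime_mul_left_right hu.2.1
    unfold Nat.Coprime at h1 ⊢
    rw [← h1, Nat.gcd_comm u m, Nat.gcd_rec m u, Nat.gcd_comm]
  · intro u hu v hv huv
    unfold U at hu hv
    simp only [mem_filter, mem_range] at hu hv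
    have h1 : u ≡ v [MOD 8] := by
      unfold Nat.ModEq
      rw [(dm_mod8 m u hm4).1 hu.2.2, (dm_mod8 m v hm4).1 hv.2.2]
    have h3 : u ≡ v [MOD 8 * m] := (Nat.modEq_and_modEq_iff_modEq_mul h8m).1 ⟨h1, huv⟩
    exact Nat.ModEq.eq_of_lt_of_lt h3 hu.1 hv.1
  · intro v hv
    simp only [mem_filter, mem_range] at hv
    set k := Nat.chineseRemainder h8m (dmr m) v with hk
    have hk8 : (k : ℕ) % 8 = dmr m := by
      have := k.prop.1
      unfold Nat.ModEq at this
      rw [this, Nat.mod_eq_of_lt hr8]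
    have hkm : (k : ℕ) % m = v := by
      have := k.prop.2
      unfold Nat.ModEq at this
      rw [this, Nat.mod_eq_of_lt hv.1]
    have hcop : Nat.Coprime (k : ℕ) (8 * m) := by
      apply Nat.Coprime.mul_right
      · have h2 : Nat.Coprime (k : ℕ) 2 := by
          rw [Nat.coprime_two_right, Nat.odd_iff]
          omega
        exact Nat.Coprime.pow_right 3 h2
      · have h3 := hv.2
        unfold Nat.Coprime at h3 ⊢
        rw [Nat.gcd_comm, Nat.gcd_rec, hkm, Nat.gcd_comm]
        exact h3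
    have hlt : (k : ℕ) < 8 * m := Nat.chineseRemainder_lt_mul h8m _ _ (by norm_num) hm.ne_zero
    refine ⟨k, ?_, hkm⟩
    unfold U
    simp only [mem_filter, mem_range]
    exact ⟨hlt, hcop, (dm_mod8 m k hm4).2 hk8⟩

theorem dg (m : ℕ) (hm : MM m) (A : ℕ → Prop) [DecidablePred A]
    (hA : ∀ u v : ℕ, u % (8 * m) = v % (8 * m) → (A u ↔ A v)) :
    Tendsto (fun X : ℕ => (((prm X).filter (fun q => (m * q) % 8 = 3 ∧ A q)).card : ℝ) /
      ((prm X).filter (fun q => (m * q) % 8 = 3)).card) atTop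
      (𝓝 ((((U m).filter A).card : ℝ) / Nat.totient m)) := by
  have hm0 : 0 < m := Nat.pos_of_ne_zero hm.1.ne_zero
  have h1 := dg_lim m hm A hA
  have h2 : Tendsto (fun x : ℕ => (((prm x).filter (fun q => (m * q) % 8 = 3)).card : ℝ) /
      (x / Real.log x)) atTop (𝓝 ((Nat.totient m : ℝ) * (1 / (Nat.totient (8 * m) : ℝ)))) := by
    have h3 := dg_lim m hm (fun _ => True) (fun _ _ _ => Iff.rfl)
    have e1 : (U m).filter (fun _ => True) = U m := by ext u; simp
    rw [e1, dg_all m hm] at h3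
    refine h3.congr fun x => ?_
    have e2 : (prm x).filter (fun q => (m * q) % 8 = 3 ∧ True) = (prm x).filter (fun q => (m * q) % 8 = 3) := by
      ext u; simp
    rw [e2]
  have hφm : (Nat.totient m : ℝ) ≠ 0 := by exact_mod_cast (Nat.totient_pos.2 hm0).ne'
  have hφ : (Nat.totient (8 * m) : ℝ) ≠ 0 := by
    exact_mod_cast (Nat.totient_pos.2 (by omega : 0 < 8 * m)).ne'
  have h3 := h1.div h2 (mul_ne_zero hφm (one_div_ne_zero hφ))
  have e : ((((U m).filter A).card : ℕ) : ℝ) * (1 / (Nat.totient (8 * m) : ℝ)) /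
      ((Nat.totient m : ℝ) * (1 / (Nat.totient (8 * m) : ℝ))) =
      ((((U m).filter A).card : ℕ) : ℝ) / (Nat.totient m : ℝ) := by
    field_simp
  rw [e] at h3
  refine h3.congr' ?_
  filter_upwards [eventually_ge_atTop 2] with x hx
  have hx1 : (1 : ℝ) < x := by exact_mod_cast (by omega : 1 < x)
  have hne : (x : ℝ) / Real.log x ≠ 0 := by
    have := Real.log_pos hx1
    positivity
  simp only [Pi.div_apply]
  rw [div_div_div_cancel_right₀ hne]

end Pool.Agent.GL
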